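import Pool.Agent.N822.TZ.Stm

/-!
Project TZ (helper822), page MP_6420b1_an, part LOW (helper565): the cocycle is nontrivial on a
set of measure at least `1/8`.
-/

set_option autoImplicit false

open Set Topology MeasureTheory Filter
open scoped ENNReal

namespace Pool.Agent.N565.TZ

open Pool.Agent.N822.TZ

/-- the cocycle -/
noncomputable def cc (n : ℕ) (z : ℤ_[2]) : Bool := ((T ^ n) (z, false)).2

theorem T_apply (z : ℤ_[2]) (b : Bool) : T (z, b) = (z + 1, xor b (phi z)) := rfl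

theorem T_pow (n : ℕ) (z : ℤ_[2]) (b : Bool) : (T ^ n) (z, b) = (z + n, xor b (cc n z)) := by
  unfold cc
  induction n generalizing b with
  | zero => simp
  | succ n ih =>
    rw [pow_succ', Equiv.Perm.mul_apply, Equiv.Perm.mul_apply, ih b, ih false, T_apply, T_apply]
    ext1
    · push_cast
      ring
    · simp

theorem two_not_dvd_one : ¬ (2 : ℤ_[2]) ∣ 1 := by
  intro h
  have h1 : IsUnit (2 : ℤ_[2]) := isUnit_of_dvd_one h
  have h2 := PadicInt.p_nonunit (p := 2)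
  rw [mem_nonunits_iff] at h2
  exact h2 (by exact_mod_cast h1)

theorem phi_true {u : ℤ_[2]} (h : (2 : ℤ_[2]) ∣ u) : phi u = true := by
  have h0 : ¬ (2 : ℤ_[2]) ∣ u + 1 := fun h1 => two_not_dvd_one ((dvd_add_right h).1 h1)
  have h1 : u + 1 ≠ 0 := fun h1 => h0 (h1 ▸ dvd_zero _)
  have h2 : ¬ 1 ≤ (u + 1).valuation := by
    rw [← PadicInt.mem_span_pow_iff_le_valuation _ h1, Ideal.mem_span_singleton, pow_one]
    exact_mod_cast h0
  unfold phi
  have h3 : (u + 1).valuation = 0 := by omega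
  rw [h3]
  rfl

theorem phi_false {u : ℤ_[2]} (h : (4 : ℤ_[2]) ∣ u - 1) : phi u = false := by
  have h2 : (2 : ℤ_[2]) ∣ u + 1 := by
    obtain ⟨c, hc⟩ := h
    exact ⟨2 * c + 1, by linear_combination hc⟩
  have h4 : ¬ (4 : ℤ_[2]) ∣ u + 1 := by
    intro h4
    have h5 : (4 : ℤ_[2]) ∣ 2 := by
      have := dvd_sub h4 h
      rwa [show u + 1 - (u - 1) = 2 by ring] at this
    obtain ⟨c, hc⟩ := h5
    apply two_not_dvd_one
    refine ⟨c, ?_⟩
    have h6 : (2 : ℤ_[2]) * (1 - 2 * c) = 0 := by linear_combination hc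
    rcases mul_eq_zero.1 h6 with h7 | h7
    · exact absurd h7 two_ne_zero
    · linear_combination h7
  have h1 : u + 1 ≠ 0 := fun h1 => h4 (h1 ▸ dvd_zero _)
  have h5 : 1 ≤ (u + 1).valuation := by
    rw [← PadicInt.mem_span_pow_iff_le_valuation _ h1, Ideal.mem_span_singleton, pow_one]
    exact_mod_cast h2
  have h6 : ¬ 2 ≤ (u + 1).valuation := by
    rw [← PadicInt.mem_span_pow_iff_le_valuation _ h1, Ideal.mem_span_singleton]
    norm_num
    exact h4
  unfold phi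
  have h7 : (u + 1).valuation = 1 := by omega
  rw [h7]
  rfl

theorem neBot : (𝓝[≠] (0 : ℤ_[2])).NeBot := by
  have h1 : Tendsto (fun n : ℕ => (2 : ℤ_[2]) ^ n) atTop (𝓝[≠] 0) := by
    rw [tendsto_nhdsWithin_iff]
    refine ⟨?_, Eventually.of_forall fun n => pow_ne_zero n two_ne_zero⟩
    have h2 : ‖(2 : ℤ_[2])‖ < 1 := by
      have h3 : ‖((2 : ℕ) : ℤ_[2])‖ = ((2 : ℕ) : ℝ)⁻¹ := PadicInt.norm_p
      have h4 : ((2 : ℕ) : ℤ_[2]) = 2 := by norm_num
      rw [h4] at h3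
      rw [h3]
      norm_num
    exact tendsto_pow_atTop_nhds_zero_of_norm_lt_one h2
  exact h1.neBot

theorem la_int : la {z : ℤ_[2] | ∃ m : ℤ, z = (m : ℤ_[2])} = 0 := by
  have := neBot
  have h1 : ({z : ℤ_[2] | ∃ m : ℤ, z = (m : ℤ_[2])}).Countable := by
    have : {z : ℤ_[2] | ∃ m : ℤ, z = (m : ℤ_[2])} = Set.range (fun m : ℤ => (m : ℤ_[2])) := by
      ext z
      simp [eq_comm]
    rw [this]
    exact Set.countable_range _
  exact h1.measure_zero la

/-- LOW. -/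
theorem t_LOW (h : S_PHI) : S_LOW := by
  intro n hn
  obtain ⟨v, m, hm, hnm⟩ := Nat.exists_eq_two_pow_mul_odd hn.ne'
  set A : Set ℤ_[2] := {z | ((T ^ n) (z, false)).2 = true} with hA
  set Z : Set ℤ_[2] := {z : ℤ_[2] | ∃ m : ℤ, z = (m : ℤ_[2])} with hZ
  set G : Set ℤ_[2] := {z | ∃ (u : ℤ_[2]) (r : ℕ), r < 2 ^ v ∧ z = 2 ^ v * u + (r : ℤ_[2]) ∧
    (4 : ℤ_[2]) ∣ u + m - 1} with hG
  have hGA : G ⊆ Z ∪ (A ∪ (fun z => (2 : ℤ_[2]) ^ v + z) ⁻¹' A) := by
    rintro z ⟨u, r, hr, hz, hu⟩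
    by_cases hzZ : z ∈ Z
    · exact Or.inl hzZ
    · right
      have hz1 : ∀ m' : ℤ, z ≠ (m' : ℤ_[2]) := fun m' hm' => hzZ ⟨m', hm'⟩
      have hz2 : ∀ m' : ℤ, z + (n : ℤ_[2]) ≠ (m' : ℤ_[2]) := fun m' hm' => hzZ ⟨m' - n, by
        push_cast
        linear_combination hm'⟩
      have e1 := h v z u r hz1 hr hz false
      have hz' : z + (n : ℤ_[2]) = 2 ^ v * (u + m) + (r : ℤ_[2]) := by
        rw [hz, hnm]
        push_cast
        ring
      have e2 := h v (z + n) (u + m) r hz2 hr hz' (cc n z)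
      have e3 : (T ^ n) ((T ^ (2 ^ v)) (z, false)) = (T ^ (2 ^ v)) ((T ^ n) (z, false)) := by
        rw [← Equiv.Perm.mul_apply, ← Equiv.Perm.mul_apply, ← pow_add, ← pow_add, add_comm]
      rw [e1, T_pow n z false, Bool.false_xor, Bool.false_xor, e2, T_pow] at e3
      have e4 := congrArg Prod.snd e3
      simp only at e4
      obtain ⟨c, hc⟩ := hu
      obtain ⟨m', hm'⟩ := hm
      have e5 : phi u = true := phi_true ⟨2 * c - m', by
        rw [hm'] at hc
        push_cast at hc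
        linear_combination hc⟩
      have e6 : phi (u + m) = false := phi_false ⟨c, hc⟩
      rw [e5, e6, Bool.xor_false, Bool.true_xor] at e4
      have hcc : ∀ w : ℤ_[2], w ∈ A ↔ cc n w = true := fun w => Iff.rfl
      rcases Bool.eq_false_or_eq_true (cc n z) with h7 | h7
      · exact Or.inl ((hcc z).2 h7)
      · right
        show (2 : ℤ_[2]) ^ v + z ∈ A
        rw [hcc, add_comm]
        rw [h7] at e4
        simpa using e4
  have hcov : (Set.univ : Set ℤ_[2]) ⊆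
      ⋃ a ∈ Finset.range 4, (fun z => (-(2 ^ v * (a : ℤ_[2]))) + z) ⁻¹' G := by
    intro z _
    obtain ⟨u, hu⟩ := Ideal.mem_span_singleton.1 (PadicInt.appr_spec v z)
    set r : ℕ := z.appr v with hr
    set w : ℤ_[2] := u + m - 1 with hw
    obtain ⟨t, ht⟩ := Ideal.mem_span_singleton.1 (PadicInt.appr_spec 2 w)
    refine Set.mem_iUnion₂.2 ⟨w.appr 2, ?_, ?_⟩
    · rw [Finset.mem_range]
      exact PadicInt.appr_lt w 2
    · show (-(2 ^ v * ((w.appr 2 : ℕ) : ℤ_[2]))) + z ∈ G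
      refine ⟨u - (w.appr 2 : ℕ), r, PadicInt.appr_lt z v, ?_, ⟨t, ?_⟩⟩
      · push_cast at hu
        linear_combination hu
      · push_cast at ht
        linear_combination ht
  have hG4 : (1 : ℝ≥0∞) ≤ 4 * la G := by
    calc (1 : ℝ≥0∞) = la Set.univ := (measure_univ).symm
      _ ≤ la (⋃ a ∈ Finset.range 4, (fun z => (-(2 ^ v * (a : ℤ_[2]))) + z) ⁻¹' G) :=
        measure_mono hcov
      _ ≤ ∑ a ∈ Finset.range 4, la ((fun z => (-(2 ^ v * (a : ℤ_[2]))) + z) ⁻¹' G) :=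
        measure_biUnion_finset_le _ _
      _ = ∑ a ∈ Finset.range 4, la G :=
        Finset.sum_congr rfl fun a _ => measure_preimage_add la _ _
      _ = 4 * la G := by simp
  have hG2 : la G ≤ 2 * la A := by
    calc la G ≤ la (Z ∪ (A ∪ (fun z => (2 : ℤ_[2]) ^ v + z) ⁻¹' A)) := measure_mono hGA
      _ ≤ la Z + la (A ∪ (fun z => (2 : ℤ_[2]) ^ v + z) ⁻¹' A) := measure_union_le _ _
      _ ≤ la Z + (la A + la ((fun z => (2 : ℤ_[2]) ^ v + z) ⁻¹' A)) := by
        gcongr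
        exact measure_union_le _ _
      _ = 2 * la A := by
        rw [measure_preimage_add, la_int, zero_add, two_mul]
  have h8 : (1 : ℝ≥0∞) ≤ 8 * la A := by
    calc (1 : ℝ≥0∞) ≤ 4 * la G := hG4
      _ ≤ 4 * (2 * la A) := by gcongr
      _ = 8 * la A := by
        rw [← mul_assoc]
        norm_num
  rw [ENNReal.inv_le_iff_le_mul]
  · exact h8
  · intro _
    norm_num
  · intro h9
    exact absurd h9 (by norm_num)

end Pool.Agent.N565.TZ
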